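import Pool.Agent.H3.AM.Targets2

/-!
# Module A5 of the Alperin–McKay reduction: targets `T_A5`, `T_A6`
-/

open scoped Classical ComplexConjugate

namespace AMc

open Representation

/-- Schur's lemma in the form needed -/
theorem a5_schur {G : Type} [Group G] [Fintype G] {n : ℕ} (ρ : Representation ℂ G (Fin n → ℂ))
    [ρ.IsIrreducible] (z : G → ℂ) (hz : ∀ u g, z (u * g * u⁻¹) = z g) :
    ∃ c : ℂ, ∑ g, z g • ρ g = c • (1 : Module.End ℂ (Fin n → ℂ)) ∧
      ∑ g, z g * ρ.character g = c * n := by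
  set Z : Module.End ℂ (Fin n → ℂ) := ∑ g, z g • ρ g with hZ
  have hcomm : ∀ x, Z * ρ x = ρ x * Z := by
    intro x
    rw [hZ, Finset.sum_mul, Finset.mul_sum]
    refine Fintype.sum_equiv (MulAut.conj x⁻¹).toEquiv _ _ (fun g => ?_)
    have h1 : (MulAut.conj x⁻¹).toEquiv g = x⁻¹ * g * x := by simp
    rw [h1]
    have h2 : z (x⁻¹ * g * x) = z g := by
      have := hz x⁻¹ g
      rwa [inv_inv] at this
    rw [h2, smul_mul_assoc, mul_smul_comm, ← map_mul, ← map_mul]
    congr 2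
    group
  let f : IntertwiningMap ρ ρ := ⟨Z, fun g => hcomm g⟩
  obtain ⟨c, hc⟩ := (IsIrreducible.algebraMap_intertwiningMap_bijective_of_isAlgClosed
    (ρ := ρ)).2 f
  have hZc : Z = c • (1 : Module.End ℂ (Fin n → ℂ)) := by
    have h := congrArg (fun f : IntertwiningMap ρ ρ => f.toLinearMap) hc
    rw [show f.toLinearMap = Z from rfl] at h
    rw [← h, IntertwiningMap.algebraMap_apply]
    rfl
  refine ⟨c, hZc, ?_⟩
  have htr := congrArg (LinearMap.trace ℂ (Fin n → ℂ)) hZc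
  rw [hZ, map_sum, map_smul, LinearMap.trace_one] at htr
  simp only [map_smul, smul_eq_mul, Module.finrank_fin_fun] at htr
  rw [← htr]
  rfl

theorem a6 (h3 : T_A3) : T_A6 := by
  rintro G _ _ χ hχ z w hz hw
  obtain ⟨-, d, hd, hd'⟩ := (h3 G).1 χ hχ
  obtain ⟨n, ρ, hρ, rfl⟩ := hχ
  obtain ⟨a, ha, ha'⟩ := a5_schur ρ (fun g => z.coeff g) hz
  obtain ⟨b, hb, hb'⟩ := a5_schur ρ (fun g => w.coeff g) hw
  have h1 : ρ.character 1 = n := by
    rw [Representation.char_one, Module.finrank_fin_fun]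
  have hprod : ∑ g, (z * w).coeff g • ρ g = (∑ g, z.coeff g • ρ g) * ∑ g, w.coeff g • ρ g := by
    rw [Finset.sum_mul]
    have : ∀ g, (z * w).coeff g • ρ g = ∑ x, (z.coeff x * w.coeff (x⁻¹ * g)) • ρ g := by
      intro g
      rw [coeff_mul_group, Finset.sum_smul]
    rw [Finset.sum_congr rfl fun g _ => this g, Finset.sum_comm]
    refine Finset.sum_congr rfl fun x _ => ?_
    rw [Finset.mul_sum]
    refine Fintype.sum_equiv (Equiv.mulLeft x⁻¹) _ _ (fun g => ?_)
    rw [Equiv.coe_mulLeft, smul_mul_smul_comm, ← map_mul]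
    congr 2
    group
  have htr := congrArg (LinearMap.trace ℂ (Fin n → ℂ)) hprod
  rw [ha, hb, smul_mul_smul_comm, one_mul, map_sum, map_smul, LinearMap.trace_one] at htr
  simp only [map_smul, smul_eq_mul, Module.finrank_fin_fun] at htr
  have h4 : ∑ g, (z * w).coeff g * ρ.character g = a * b * n := htr
  rw [h4, ha', hb', h1]
  ring

theorem a5 (h3 : T_A3) : T_A5 := by
  rintro G _ _ χ hχ x
  obtain ⟨-, d, hd, hd'⟩ := (h3 G).1 χ hχ
  obtain ⟨n, ρ, hρ, rfl⟩ := hχ
  have h1 : ρ.character 1 = n := by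
    rw [Representation.char_one, Module.finrank_fin_fun]
  have hn : (n : ℂ) ≠ 0 := by
    rw [← h1, hd']; exact_mod_cast hd.ne'
  have hn0 : n ≠ 0 := by exact_mod_cast hn
  have hconj : ∀ u g : G, IsConj x (u * g * u⁻¹) ↔ IsConj x g := by
    intro u g
    have h2 : IsConj g (u * g * u⁻¹) := isConj_iff.2 ⟨u, rfl⟩
    exact ⟨fun h => h.trans h2.symm, fun h => h.trans h2⟩
  obtain ⟨c, hc, hc'⟩ := a5_schur ρ (fun g => if IsConj x g then 1 else 0)
    (by intro u g; simp only [hconj])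
  have hcen : cen (MonoidHom.id G) ρ.character x = c := by
    unfold cen
    rw [h1, div_eq_iff hn, ← hc']
    refine Finset.sum_congr rfl fun g _ => ?_
    rw [MonoidHom.id_apply]
    split_ifs <;> simp
  rw [hcen]
  -- the class sum is integral over `ℤ`
  let φ : MonoidAlgebra ℤ G →ₐ[ℤ] Module.End ℂ (Fin n → ℂ) :=
    MonoidAlgebra.lift ℤ (Module.End ℂ (Fin n → ℂ)) G ρ
  let k : MonoidAlgebra ℤ G := ∑ g, if IsConj x g then MonoidAlgebra.single g 1 else 0
  have hk : IsIntegral ℤ k := Algebra.IsIntegral.isIntegral k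
  have hφk : φ k = c • (1 : Module.End ℂ (Fin n → ℂ)) := by
    rw [← hc, map_sum]
    refine Finset.sum_congr rfl fun g _ => ?_
    split_ifs with h
    · rw [one_smul]
      simp [φ]
    · rw [map_zero, zero_smul]
  have h5 : IsIntegral ℤ (φ k) := hk.map φ
  rw [hφk] at h5
  have h6 : c • (1 : Module.End ℂ (Fin n → ℂ)) = algebraMap ℂ (Module.End ℂ (Fin n → ℂ)) c := by
    rw [Algebra.algebraMap_eq_smul_one]
  rw [h6] at h5
  have : Nonempty (Fin n) := ⟨⟨0, Nat.pos_of_ne_zero hn0⟩⟩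
  have : Nontrivial (Module.End ℂ (Fin n → ℂ)) := inferInstance
  exact (isIntegral_algebraMap_iff (FaithfulSMul.algebraMap_injective ℂ _)).1 h5

end AMc
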