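import Pool.Agent.H3.AM.Targets2

/-!
# Module A4 of the Alperin–McKay reduction: target `T_A4`
-/

open scoped Classical ComplexConjugate

namespace AMc

/-- the character of any finite-dimensional representation is a character -/
theorem isChar_of_rep {G : Type} [Group G] {V : Type*} [AddCommGroup V] [Module ℂ V]
    [FiniteDimensional ℂ V] (ρ : Representation ℂ G V) : IsChar G ρ.character := by
  set e : V ≃ₗ[ℂ] (Fin (Module.finrank ℂ V) → ℂ) := (Module.finBasis ℂ V).equivFun with he
  refine ⟨Module.finrank ℂ V,
    { toFun := fun g => e.conj (ρ g)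
      map_one' := ?_
      map_mul' := ?_ }, ?_⟩
  · ext x
    simp [LinearEquiv.conj_apply]
  · intro a b
    rw [map_mul]
    ext x
    simp [LinearEquiv.conj_apply]
  · funext g
    exact LinearMap.trace_conj' (ρ g) e

theorem a4 : T_A4 := by
  refine ⟨?_, ?_, ?_⟩
  · rintro G _ _ f f' ⟨n, ρ, rfl⟩ ⟨m, σ, rfl⟩
    have := isChar_of_rep (ρ.tprod σ)
    rw [Representation.char_tensor] at this
    exact this
  · rintro N G _ _ φ f ⟨n, ρ, rfl⟩
    exact ⟨n, MonoidHom.comp ρ φ, rfl⟩
  · intro G _ μ
    let ρ : Representation ℂ G ℂ :=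
      { toFun := fun g => (μ g : ℂ) • (1 : Module.End ℂ ℂ)
        map_one' := by simp
        map_mul' := by
          intro a b
          ext
          simp [mul_comm] }
    have h := isChar_of_rep ρ
    have h2 : ρ.character = fun g => (μ g : ℂ) := by
      funext g
      show LinearMap.trace ℂ ℂ ((μ g : ℂ) • (1 : Module.End ℂ ℂ)) = _
      rw [map_smul, LinearMap.trace_one, Module.finrank_self]
      simp
    rw [h2] at h
    exact h

end AMc
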