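import Pool.Agent.H3.AM.Basic

/-!
# Module B7 of the Alperin–McKay reduction: targets `T_B7`, `T_B9`
-/

open scoped Classical ComplexConjugate

set_option linter.unusedSectionVars false

namespace AMc

theorem b7 (h1 : T_S1) (h5 : T_S5) (h2 : T_B2) : T_B7 := by
  intro F _ π hπ ℓ _ _ Γ _ _ N θ hθ x hx hne d hd
  by_contra hlt
  push Not at hlt
  apply hne
  obtain ⟨-, hcl, ⟨d0, hd0, hθd0⟩, -, -, -⟩ := h1 Γ N θ hθ
  have hd00 : d = d0 := by
    have : (d : ℂ) = d0 := by rw [← hd, hθd0]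
    exact_mod_cast this
  have hdpos : 0 < d := by omega
  have hℓ : ℓ.Prime := Fact.out
  set m := (Subgroup.centralizer {x} ⊓ N).relIndex N with hm
  have hmcard : (cls N x).card = m := card_cls N x
  have hmpos : 0 < m := by
    rw [← hmcard]; exact Finset.card_pos.2 ⟨x, self_mem_cls N x⟩
  have hB := h2 F π hπ Γ N θ hθ (cls N x) (fun n hn g hg => (cls_conj hn).2 hg)
  rw [hB.2]
  have hom : om θ (cls N x) * d = m * θ x := by
    unfold om
    have : ∑ g ∈ cls N x, θ g = m * θ x := by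
      rw [Finset.sum_congr rfl (g := fun _ => θ x)]
      · rw [Finset.sum_const, hmcard, nsmul_eq_mul]
      · intro g hg
        obtain ⟨u, hu, rfl⟩ := mem_cls.1 hg
        exact hcl u hu x
    rw [this, hd, div_mul_cancel₀]
    exact_mod_cast hdpos.ne'
  -- write `d = ℓ^a d'`, `m = ℓ^a * ℓ * m'`
  obtain ⟨d', hd'⟩ : ℓ ^ padicValNat ℓ d ∣ d := pow_padicValNat_dvd
  obtain ⟨m', hm'⟩ : ℓ ^ (padicValNat ℓ d + 1) ∣ m :=
    (pow_dvd_pow ℓ hlt).trans pow_padicValNat_dvd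
  have hndvd : ¬ ℓ ∣ d' := by
    rintro ⟨e, he⟩
    have h3 : ℓ ^ (padicValNat ℓ d + 1) ∣ d := ⟨e, by rw [pow_succ]; rw [he] at hd'; linarith⟩
    exact pow_succ_padicValNat_not_dvd hdpos.ne' h3
  have hℓ0 : (ℓ : ℂ) ≠ 0 := by exact_mod_cast hℓ.ne_zero
  have hkey : (d' : ℂ) * om θ (cls N x) = (ℓ : ℂ) * ((m' : ℂ) * θ x) := by
    have h3 : (d : ℂ) = (ℓ : ℂ) ^ padicValNat ℓ d * d' := by exact_mod_cast hd'
    have h4 : (m : ℂ) = (ℓ : ℂ) ^ (padicValNat ℓ d + 1) * m' := by exact_mod_cast hm'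
    have h5 : (ℓ : ℂ) ^ padicValNat ℓ d ≠ 0 := pow_ne_zero _ hℓ0
    apply mul_left_cancel₀ h5
    rw [← mul_assoc, ← h3, mul_comm, hom, h4]
    ring
  have hθx : IsIntegral ℤ (θ x) := (h5 Γ N θ hθ).1 x
  have h6 := congrArg (rd π) hkey
  rw [rd_mul π (isIntegral_natCast d') hB.1, rd_natCast,
    rd_mul π (isIntegral_natCast ℓ) (IsIntegral.mul (isIntegral_natCast m') hθx), rd_natCast,
    CharP.cast_eq_zero F ℓ, zero_mul] at h6
  rcases mul_eq_zero.1 h6 with h7 | h7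
  · exact absurd ((CharP.cast_eq_zero_iff F ℓ d').1 h7) hndvd
  · exact h7

theorem b9 (h1 : T_B1) (h2 : T_B2) : T_B9 := by
  intro F _ π hπ ℓ _ _ Γ _ _ N χ hχ
  have hB : ∀ θ ∈ IrrS N, ∀ x, IsIntegral ℤ (om θ (cls N x)) ∧
      lam π θ (csum F (cls N x)) = rd π (om θ (cls N x)) := fun θ hθ x =>
    h2 F π hπ Γ N θ hθ (cls N x) (fun n hn g hg => (cls_conj hn).2 hg)
  have hsame : ∀ χ' ∈ IrrS N, (SameS (RingHom.ker π) N χ χ' ↔
      ∀ z ∈ ZA F N N, lam π χ' z = lam π χ z) := by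
    intro χ' hχ'
    have c1 := h1 F π hπ Γ N χ hχ
    have c2 := h1 F π hπ Γ N χ' hχ'
    constructor
    · intro h
      refine ZA_ext (nor_self N) _ _ c2.map_add c2.map_smul c1.map_add c1.map_smul ?_
      intro x hx
      rw [(hB χ hχ x).2, (hB χ' hχ' x).2]
      exact ((cong_iff π (hB χ hχ x).1 (hB χ' hχ' x).1).1 (h x hx)).symm
    · intro h x hx
      rw [cong_iff π (hB χ hχ x).1 (hB χ' hχ' x).1, ← (hB χ hχ x).2, ← (hB χ' hχ' x).2]
      exact (h _ (csum_cls_mem_self hx)).symm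
  have hzero : ∀ x, ¬ Cong (RingHom.ker π) (om χ (cls N x)) 0 ↔
      lam π χ (csum F (cls N x)) ≠ 0 := by
    intro x
    rw [cong_zero_iff π (hB χ hχ x).1, (hB χ hχ x).2]
  refine ⟨hsame, ?_, ?_⟩
  · intro D
    unfold IsDefS DefH
    simp only [hzero]
  · intro D
    unfold K0S K0H
    ext χ'
    rw [Set.mem_ofPred_eq, Set.mem_ofPred_eq]
    constructor
    · rintro ⟨a, b, c⟩
      exact ⟨a, (hsame χ' a).1 b, c⟩
    · rintro ⟨a, b, c⟩
      exact ⟨a, (hsame χ' a).2 b, c⟩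

end AMc
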