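import Pool.Agent.H3.AM.Basic

/-!
# Module BL of the Alperin–McKay reduction: targets `T_BL`, `T_B1`, `T_B2`
-/

open scoped Classical ComplexConjugate

set_option linter.unusedSectionVars false

namespace AMc

section

variable {F : Type} [Field F] (π : integralClosure ℤ ℂ →+* F)
variable {Γ : Type} [Group Γ] [Fintype Γ]

/-- grouping a sum over `N` by `N`-classes -/
theorem bl_group {N : Subgroup Γ} {θ : Γ → ℂ} (hθ : ∀ g, g ∉ N → θ g = 0)
    (y : Γ → integralClosure ℤ ℂ) (hy : ∀ n ∈ N, ∀ g, y (n * g * n⁻¹) = y g) :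
    ∃ (C : Finset (Finset Γ)) (r : Finset Γ → Γ), (∀ c ∈ C, r c ∈ N ∧ c = cls N (r c)) ∧
      (∑ g, (y g : ℂ) * θ g) / θ 1 = ∑ c ∈ C, (y (r c) : ℂ) * om θ c := by
  classical
  set s : Finset Γ := Finset.univ.filter (fun g => g ∈ N) with hs
  have hex : ∀ c : Finset Γ, c ∈ s.image (cls N) → ∃ x, x ∈ N ∧ c = cls N x := by
    intro c hc
    obtain ⟨x, hx, rfl⟩ := Finset.mem_image.1 hc
    exact ⟨x, (Finset.mem_filter.1 hx).2, rfl⟩
  refine ⟨s.image (cls N), fun c => if h : c ∈ s.image (cls N) then (hex c h).choose else 1,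
    ?_, ?_⟩
  · intro c hc
    simp only [dif_pos hc]
    exact (hex c hc).choose_spec
  · have h1 : ∑ g, (y g : ℂ) * θ g = ∑ g ∈ s, (y g : ℂ) * θ g := by
      rw [hs, Finset.sum_filter]
      refine Finset.sum_congr rfl fun g _ => ?_
      split_ifs with h
      · rfl
      · rw [hθ g h, mul_zero]
    rw [h1, ← Finset.sum_fiberwise_of_maps_to
      (g := cls N) (t := s.image (cls N)) (fun g hg => Finset.mem_image_of_mem _ hg),
      Finset.sum_div]
    refine Finset.sum_congr rfl fun c hc => ?_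
    simp only [dif_pos hc]
    obtain ⟨hx, hcx⟩ := (hex c hc).choose_spec
    set x := (hex c hc).choose with hxdef
    have h2 : s.filter (fun g => cls N g = c) = c := by
      ext g
      rw [Finset.mem_filter, hs, Finset.mem_filter]
      constructor
      · rintro ⟨_, hg⟩
        rw [← hg]; exact self_mem_cls N g
      · intro hg
        rw [hcx] at hg ⊢
        exact ⟨⟨Finset.mem_univ _, cls_subset_self hx g hg⟩, cls_eq_of_mem hg⟩
    rw [h2, om, mul_div_assoc', Finset.mul_sum]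
    congr 1
    refine Finset.sum_congr rfl fun g hg => ?_
    rw [hcx] at hg
    obtain ⟨u, hu, rfl⟩ := mem_cls.1 hg
    rw [hy u hu x]

/-- integrality and reduction -/
theorem bl_int (h5 : T_S5) {N : Subgroup Γ} {θ : Γ → ℂ} (hθ : θ ∈ IrrS N)
    (hθ0 : ∀ g, g ∉ N → θ g = 0)
    (y : Γ → integralClosure ℤ ℂ) (hy : ∀ n ∈ N, ∀ g, y (n * g * n⁻¹) = y g) :
    IsIntegral ℤ ((∑ g, (y g : ℂ) * θ g) / θ 1) ∧
      ((∀ g ∈ N, π (y g) = 0) → rd π ((∑ g, (y g : ℂ) * θ g) / θ 1) = 0) := by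
  obtain ⟨C, r, hC, hsum⟩ := bl_group hθ0 y hy
  rw [hsum]
  have hom : ∀ c ∈ C, IsIntegral ℤ (om θ c) := by
    intro c hc
    obtain ⟨hr, hcr⟩ := hC c hc
    refine (h5 Γ N θ hθ).2 c ?_ ?_
    · rw [hcr]; exact cls_subset_self hr
    · intro n hn g hg
      rw [hcr] at hg ⊢
      exact (cls_conj hn).2 hg
  have hint : ∀ c ∈ C, IsIntegral ℤ ((y (r c) : ℂ) * om θ c) := fun c hc =>
    IsIntegral.mul (y (r c)).2 (hom c hc)
  have := rd_sum π C (fun c => (y (r c) : ℂ) * om θ c) hint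
  refine ⟨this.1, fun h0 => ?_⟩
  rw [this.2]
  refine Finset.sum_eq_zero fun c hc => ?_
  rw [rd_mul π (show IsIntegral ℤ ((y (r c) : integralClosure ℤ ℂ) : ℂ) from (y (r c)).2)
    (hom c hc), rd_coe, h0 _ (hC c hc).1, zero_mul]

theorem bl (h1 : T_S1) (h5 : T_S5) : T_BL := by
  intro F _ π hπ Γ _ _ N θ hθ z hz y hy hyz
  have hθ0 := (h1 Γ N θ hθ).1
  have hinv : ∀ a, π (Function.invFun π a) = a := fun a => Function.invFun_eq (hπ a)
  set y0 : Γ → integralClosure ℤ ℂ := fun g => Function.invFun π (z.coeff g) with hy0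
  have hy0' : ∀ n ∈ N, ∀ g, y0 (n * g * n⁻¹) = y0 g := by
    intro n hn g
    simp only [hy0]
    rw [hz n hn g]
  have hY := bl_int π h5 hθ hθ0 y hy
  have hY0 := bl_int π h5 hθ hθ0 y0 hy0'
  have hD := bl_int π h5 hθ hθ0 (fun g => y g - y0 g) (by
    intro n hn g
    rw [hy n hn g, hy0' n hn g])
  refine ⟨hY.1, ?_⟩
  have h3 := hD.2 (by
    intro g hg
    rw [map_sub, hyz g hg, hy0, hinv, sub_self])
  have h4 : (∑ g, ((y g - y0 g : integralClosure ℤ ℂ) : ℂ) * θ g) / θ 1 =
      (∑ g, (y g : ℂ) * θ g) / θ 1 - (∑ g, (y0 g : ℂ) * θ g) / θ 1 := by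
    rw [← sub_div, ← Finset.sum_sub_distrib]
    congr 1
    refine Finset.sum_congr rfl fun g _ => ?_
    push_cast
    ring
  rw [h4, rd_sub π hY.1 hY0.1, sub_eq_zero] at h3
  rw [h3]
  rfl

theorem b2 (hBL : T_BL) : T_B2 := by
  intro F _ π hπ Γ _ _ N θ hθ S hS
  have hS' : ∀ n ∈ N, ∀ g, n * g * n⁻¹ ∈ S ↔ g ∈ S := by
    intro n hn g
    constructor
    · intro h
      have h2 := hS n⁻¹ (N.inv_mem hn) _ h
      have h3 : n⁻¹ * (n * g * n⁻¹) * n⁻¹⁻¹ = g := by group
      rwa [h3] at h2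
    · exact hS n hn g
  have h := hBL F π hπ Γ N θ hθ (csum F S)
    (by intro n hn g; rw [coeff_csum, coeff_csum]; simp only [hS' n hn g])
    (fun g => if g ∈ S then 1 else 0)
    (by intro n hn g; simp only [hS' n hn g])
    (by intro g _; rw [coeff_csum]; split_ifs <;> simp)
  have h2 : (∑ g, (((if g ∈ S then 1 else 0 : integralClosure ℤ ℂ)) : ℂ) * θ g) / θ 1 =
      om θ S := by
    unfold om
    congr 1
    rw [← Finset.sum_filter_add_sum_filter_not Finset.univ (fun g => g ∈ S)]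
    rw [Finset.sum_eq_zero (s := Finset.univ.filter (fun g => ¬ g ∈ S)), add_zero]
    · have : Finset.univ.filter (fun g => g ∈ S) = S := by ext; simp
      rw [this]
      refine Finset.sum_congr rfl fun g hg => ?_
      rw [if_pos hg]; simp
    · intro g hg
      rw [if_neg (Finset.mem_filter.1 hg).2]; simp
  rw [h2] at h
  exact h

theorem b1 (h1 : T_S1) (h6 : T_S6) (hBL : T_BL) : T_B1 := by
  intro F _ π hπ Γ _ _ N θ hθ
  obtain ⟨hθ0, -, ⟨d, hd, hθd⟩, -, -, -⟩ := h1 Γ N θ hθ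
  have hθ1 : θ 1 ≠ 0 := by rw [hθd]; exact_mod_cast hd.ne'
  have hinv : ∀ a, π (Function.invFun π a) = a := fun a => Function.invFun_eq (hπ a)
  refine ⟨?_, ?_, ?_, ?_⟩
  · have hS : ∀ n ∈ N, ∀ g ∈ ({1} : Finset Γ), n * g * n⁻¹ ∈ ({1} : Finset Γ) := by
      intro n _ g hg
      rw [Finset.mem_singleton] at hg ⊢
      rw [hg]; group
    have := (b2 hBL F π hπ Γ N θ hθ {1} hS).2
    rw [csum_one] at this
    rw [this, om, Finset.sum_singleton, div_self hθ1, rd_one]
  · intro z hz w hw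
    have hY := hBL F π hπ Γ N θ hθ z hz.2 (fun g => Function.invFun π (z.coeff g))
      (by intro n hn g; rw [hz.2 n hn g]) (fun g _ => hinv _)
    have hW := hBL F π hπ Γ N θ hθ w hw.2 (fun g => Function.invFun π (w.coeff g))
      (by intro n hn g; rw [hw.2 n hn g]) (fun g _ => hinv _)
    have hS := hBL F π hπ Γ N θ hθ (z + w) ((ZA F N N).add_mem hz hw).2
      (fun g => Function.invFun π (z.coeff g) + Function.invFun π (w.coeff g))
      (by intro n hn g; rw [hz.2 n hn g, hw.2 n hn g])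
      (by
        intro g _
        rw [map_add, hinv, hinv, MonoidAlgebra.coeff_add, Finsupp.add_apply])
    rw [hS.2, hY.2, hW.2, ← rd_add π hY.1 hW.1]
    congr 1
    rw [← add_div, ← Finset.sum_add_distrib]
    congr 1
    refine Finset.sum_congr rfl fun g _ => ?_
    push_cast
    ring
  · intro z hz w hw
    set y : Γ → integralClosure ℤ ℂ :=
      fun g => if g ∈ N then Function.invFun π (z.coeff g) else 0 with hy
    set x : Γ → integralClosure ℤ ℂ :=
      fun g => if g ∈ N then Function.invFun π (w.coeff g) else 0 with hx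
    have hyN : ∀ n ∈ N, ∀ g, y (n * g * n⁻¹) = y g := by
      intro n hn g
      simp only [hy]
      rw [hz.2 n hn g]
      simp only [nor_iff (nor_self N) hn g]
    have hxN : ∀ n ∈ N, ∀ g, x (n * g * n⁻¹) = x g := by
      intro n hn g
      simp only [hx]
      rw [hw.2 n hn g]
      simp only [nor_iff (nor_self N) hn g]
    have hyz : ∀ g, π (y g) = z.coeff g := by
      intro g
      simp only [hy]
      split_ifs with h
      · exact hinv _
      · rw [map_zero, hz.1 g h]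
    have hxw : ∀ g, π (x g) = w.coeff g := by
      intro g
      simp only [hx]
      split_ifs with h
      · exact hinv _
      · rw [map_zero, hw.1 g h]
    have hY := hBL F π hπ Γ N θ hθ z hz.2 y hyN (fun g _ => hyz g)
    have hW := hBL F π hπ Γ N θ hθ w hw.2 x hxN (fun g _ => hxw g)
    have hS := hBL F π hπ Γ N θ hθ (z * w) ((ZA F N N).mul_mem hz hw).2
      (fun g => ∑ a, y a * x (a⁻¹ * g))
      (by
        intro n hn g
        rw [← Equiv.sum_comp (MulAut.conj n).toEquiv]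
        refine Finset.sum_congr rfl fun a _ => ?_
        have h1 : (MulAut.conj n).toEquiv a = n * a * n⁻¹ := by simp [MulAut.conj_apply]
        rw [h1, hyN n hn a]
        have h2 : (n * a * n⁻¹)⁻¹ * (n * g * n⁻¹) = n * (a⁻¹ * g) * n⁻¹ := by group
        rw [h2, hxN n hn])
      (by
        intro g _
        rw [map_sum, coeff_mul_group]
        refine Finset.sum_congr rfl fun a _ => ?_
        rw [map_mul, hyz, hxw])
    set zc : MonoidAlgebra ℂ Γ :=
      MonoidAlgebra.ofCoeff (Finsupp.equivFunOnFinite.symm fun g => (y g : ℂ)) with hzc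
    set wc : MonoidAlgebra ℂ Γ :=
      MonoidAlgebra.ofCoeff (Finsupp.equivFunOnFinite.symm fun g => (x g : ℂ)) with hwc
    have hzcc : ∀ g, zc.coeff g = (y g : ℂ) := fun g => rfl
    have hwcc : ∀ g, wc.coeff g = (x g : ℂ) := fun g => rfl
    have hzcm : zc ∈ ZA ℂ N N := by
      refine ⟨fun g hg => ?_, fun u hu g => ?_⟩
      · rw [hzcc, hy]; simp only; rw [if_neg hg]; rfl
      · rw [hzcc, hzcc, hyN u hu g]
    have hwcm : wc ∈ ZA ℂ N N := by
      refine ⟨fun g hg => ?_, fun u hu g => ?_⟩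
      · rw [hwcc, hx]; simp only; rw [if_neg hg]; rfl
      · rw [hwcc, hwcc, hxN u hu g]
    have key := h6 Γ N θ hθ zc hzcm wc hwcm
    have hcoef : ∀ g, (zc * wc).coeff g = ((∑ a, y a * x (a⁻¹ * g) : integralClosure ℤ ℂ) : ℂ) := by
      intro g
      rw [coeff_mul_group]
      push_cast
      rfl
    rw [hS.2, hY.2, hW.2, ← rd_mul π hY.1 hW.1]
    congr 1
    have e1 : ∑ g, ((∑ a, y a * x (a⁻¹ * g) : integralClosure ℤ ℂ) : ℂ) * θ g =
        ∑ g, (zc * wc).coeff g * θ g :=
      Finset.sum_congr rfl fun g _ => by rw [hcoef]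
    have e2 : ∑ g, (y g : ℂ) * θ g = ∑ g, zc.coeff g * θ g := rfl
    have e3 : ∑ g, (x g : ℂ) * θ g = ∑ g, wc.coeff g * θ g := rfl
    rw [e1, e2, e3, div_mul_div_comm, div_eq_div_iff hθ1 (mul_ne_zero hθ1 hθ1), ← key]
    ring
  · intro c z hz
    have hY := hBL F π hπ Γ N θ hθ z hz.2 (fun g => Function.invFun π (z.coeff g))
      (by intro n hn g; rw [hz.2 n hn g]) (fun g _ => hinv _)
    have hS := hBL F π hπ Γ N θ hθ (c • z) ((ZA F N N).smul_mem hz c).2
      (fun g => Function.invFun π c * Function.invFun π (z.coeff g))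
      (by intro n hn g; rw [hz.2 n hn g])
      (by
        intro g _
        rw [map_mul, hinv, hinv, MonoidAlgebra.coeff_smul, Finsupp.smul_apply, smul_eq_mul])
    rw [hS.2, hY.2]
    have h3 : c = rd π ((Function.invFun π c : integralClosure ℤ ℂ) : ℂ) := by
      rw [rd_coe, hinv]
    conv_rhs => rw [h3]
    rw [← rd_mul π (show IsIntegral ℤ ((Function.invFun π c : integralClosure ℤ ℂ) : ℂ) from
      (Function.invFun π c).2) hY.1]
    congr 1
    rw [mul_div_assoc', Finset.mul_sum]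
    congr 1
    refine Finset.sum_congr rfl fun g _ => ?_
    push_cast
    ring

end

end AMc
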